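import Mathlib

set_option autoImplicit false

namespace Pool.Agent.Results.MP_efc620_co.GemCounterexample

open Polynomial

/-- A graph is chordal if every cycle of length at least four has a chord: an edge of the graph
joining two vertices of the cycle that is not an edge of the cycle. -/
def IsChordal {V : Type*} (G : SimpleGraph V) : Prop :=
  ∀ (u : V) (c : G.Walk u u), c.IsCycle → 4 ≤ c.length →
    ∃ x ∈ c.support, ∃ y ∈ c.support, G.Adj x y ∧ s(x, y) ∉ c.edges

/-- The number of cycles of a permutation, fixed points counted as cycles. -/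
def numCycles {V : Type*} [Fintype V] [DecidableEq V] (σ : Equiv.Perm V) : ℕ :=
  Multiset.card σ.cycleType + (Finset.univ.filter (fun v => σ v = v)).card

/-- The number of permutations of the vertices with exactly `k` cycles (fixed points count as
cycles) such that `v` and `σ v` are adjacent whenever `σ v ≠ v`. -/
noncomputable def cycleCount {V : Type*} [Fintype V] [DecidableEq V] (G : SimpleGraph V)
    (k : ℕ) : ℕ :=
  Nat.card {σ : Equiv.Perm V // numCycles σ = k ∧ ∀ v, σ v ≠ v → G.Adj v (σ v)}

/-- The graphical cycle polynomial of the first kind. -/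
noncomputable def cyclePoly {V : Type*} [Fintype V] [DecidableEq V] (G : SimpleGraph V) :
    ℂ[X] :=
  ∑ k ∈ Finset.Icc 1 (Fintype.card V), (cycleCount G k : ℂ[X]) * X ^ k

/-- Adjacency of the gem: the path 0-1-2-3 together with the vertex 4 joined to all of it. -/
def gemAdj : Fin 5 → Fin 5 → Bool := fun i j =>
  (i.val + 1 == j.val) || (j.val + 1 == i.val) || (i.val == 4 && j.val != 4) ||
    (j.val == 4 && i.val != 4)

/-- The gem. -/
def gem : SimpleGraph (Fin 5) where
  Adj i j := gemAdj i j = true
  symm := ⟨by decide⟩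
  loopless := ⟨by decide⟩

instance : DecidableRel gem.Adj := fun i j => inferInstanceAs (Decidable (gemAdj i j = true))

lemma cycleCount_gem (k : ℕ) : cycleCount gem k =
    ((Finset.univ : Finset (Equiv.Perm (Fin 5))).filter
      (fun σ => numCycles σ = k ∧ ∀ v, σ v ≠ v → gem.Adj v (σ v))).card := by
  rw [cycleCount, Nat.card_eq_fintype_card, Fintype.card_subtype]

lemma cc1 : cycleCount gem 1 = 2 := by rw [cycleCount_gem]; decide +kernel
lemma cc2 : cycleCount gem 2 = 8 := by rw [cycleCount_gem]; decide +kernel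
lemma cc3 : cycleCount gem 3 = 13 := by rw [cycleCount_gem]; decide +kernel
lemma cc4 : cycleCount gem 4 = 7 := by rw [cycleCount_gem]; decide +kernel
lemma cc5 : cycleCount gem 5 = 1 := by rw [cycleCount_gem]; decide +kernel

lemma cyclePoly_gem : cyclePoly gem = 2 * X + 8 * X ^ 2 + 13 * X ^ 3 + 7 * X ^ 4 + X ^ 5 := by
  have h : Finset.Icc 1 (Fintype.card (Fin 5)) = {1, 2, 3, 4, 5} := by
    rw [Fintype.card_fin]; rfl
  rw [cyclePoly, h]
  rw [Finset.sum_insert (by decide), Finset.sum_insert (by decide), Finset.sum_insert (by decide),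
    Finset.sum_insert (by decide), Finset.sum_singleton, cc1, cc2, cc3, cc4, cc5]
  push_cast
  ring

lemma chord4 : ∀ a b c d : Fin 5, gem.Adj a b → gem.Adj b c → gem.Adj c d → gem.Adj d a →
    [b, c, d, a].Nodup → gem.Adj a c ∨ gem.Adj b d := by
  decide +kernel

lemma chord5 : ∀ a b c d e : Fin 5, gem.Adj a b → gem.Adj b c → gem.Adj c d → gem.Adj d e →
    gem.Adj e a → [b, c, d, e, a].Nodup → gem.Adj a c ∨ gem.Adj b d ∨ gem.Adj c e ∨ gem.Adj d a := by
  decide +kernel

lemma gem_chordal : IsChordal gem := by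
  intro u c hc h4
  have hnd := hc.support_nodup
  have h5 : c.length ≤ 5 := by
    have := hnd.length_le_card
    rw [List.length_tail, SimpleGraph.Walk.length_support, Fintype.card_fin] at this
    omega
  match c, hnd, h4, h5 with
  | .cons (v := b) hab (.cons (v := c) hbc (.cons (v := d) hcd (.cons hda .nil))), hnd, _, _ =>
    simp only [SimpleGraph.Walk.support_cons, SimpleGraph.Walk.support_nil, List.tail_cons] at hnd
    rcases chord4 _ _ _ _ hab hbc hcd hda hnd with h | h
    · refine ⟨u, by simp, c, by simp, h, ?_⟩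
      simp only [List.nodup_cons, List.mem_cons, not_or] at hnd
      simp only [SimpleGraph.Walk.edges_cons, SimpleGraph.Walk.edges_nil, List.mem_cons,
        Sym2.eq_iff, List.not_mem_nil, or_false, not_or, not_and]
      grind
    · refine ⟨b, by simp, d, by simp, h, ?_⟩
      simp only [List.nodup_cons, List.mem_cons, not_or] at hnd
      simp only [SimpleGraph.Walk.edges_cons, SimpleGraph.Walk.edges_nil, List.mem_cons,
        Sym2.eq_iff, List.not_mem_nil, or_false, not_or, not_and]
      grind
  | .cons (v := b) hab (.cons (v := c) hbc (.cons (v := d) hcd (.cons (v := e) hde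
      (.cons hea .nil)))), hnd, _, _ =>
    simp only [SimpleGraph.Walk.support_cons, SimpleGraph.Walk.support_nil, List.tail_cons] at hnd
    rcases chord5 _ _ _ _ _ hab hbc hcd hde hea hnd with h | h | h | h
    · refine ⟨u, by simp, c, by simp, h, ?_⟩
      simp only [List.nodup_cons, List.mem_cons, not_or] at hnd
      simp only [SimpleGraph.Walk.edges_cons, SimpleGraph.Walk.edges_nil, List.mem_cons,
        Sym2.eq_iff, List.not_mem_nil, or_false, not_or, not_and]
      grind
    · refine ⟨b, by simp, d, by simp, h, ?_⟩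
      simp only [List.nodup_cons, List.mem_cons, not_or] at hnd
      simp only [SimpleGraph.Walk.edges_cons, SimpleGraph.Walk.edges_nil, List.mem_cons,
        Sym2.eq_iff, List.not_mem_nil, or_false, not_or, not_and]
      grind
    · refine ⟨c, by simp, e, by simp, h, ?_⟩
      simp only [List.nodup_cons, List.mem_cons, not_or] at hnd
      simp only [SimpleGraph.Walk.edges_cons, SimpleGraph.Walk.edges_nil, List.mem_cons,
        Sym2.eq_iff, List.not_mem_nil, or_false, not_or, not_and]
      grind
    · refine ⟨d, by simp, u, by simp, h, ?_⟩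
      simp only [List.nodup_cons, List.mem_cons, not_or] at hnd
      simp only [SimpleGraph.Walk.edges_cons, SimpleGraph.Walk.edges_nil, List.mem_cons,
        Sym2.eq_iff, List.not_mem_nil, or_false, not_or, not_and]
      grind

/-- The quartic factor has a non-real root. -/
lemma quartic_root : ∃ z : ℂ, z ^ 4 + 7 * z ^ 3 + 13 * z ^ 2 + 8 * z + 2 = 0 ∧ z.im ≠ 0 := by
  by_contra hcon
  push Not at hcon
  set p : ℂ[X] := X ^ 4 + 7 * X ^ 3 + 13 * X ^ 2 + 8 * X + 2 with hp
  have hev : ∀ z : ℂ, p.eval z = z ^ 4 + 7 * z ^ 3 + 13 * z ^ 2 + 8 * z + 2 := by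
    intro z; simp [hp]
  have hdeg : p.natDegree = 4 := by
    rw [hp]; compute_degree!
  have hmon : p.Monic := by
    rw [hp]; monicity!
  have hsplit : p.Splits := IsAlgClosed.splits p
  have hcard : Multiset.card p.roots = 4 := by
    rw [← hdeg]; exact (splits_iff_card_roots.mp hsplit)
  obtain ⟨a, b, c, d, hr⟩ := Multiset.card_eq_four.mp hcard
  have hfac : p = (X - C a) * ((X - C b) * ((X - C c) * (X - C d))) := by
    have h1 := hsplit.eq_prod_roots
    rw [hmon.leadingCoeff, hr] at h1
    simpa using h1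
  have hroot : ∀ z ∈ p.roots, z.im = 0 := by
    intro z hz
    have h1 := (mem_roots hmon.ne_zero).mp hz
    rw [IsRoot.def, hev] at h1
    exact hcon z h1
  have ha : a.im = 0 := hroot a (by rw [hr]; simp)
  have hb : b.im = 0 := hroot b (by rw [hr]; simp)
  have hc : c.im = 0 := hroot c (by rw [hr]; simp)
  have hd : d.im = 0 := hroot d (by rw [hr]; simp)
  obtain ⟨a', rfl⟩ : ∃ a' : ℝ, (a' : ℂ) = a := ⟨a.re, by apply Complex.ext <;> simp [ha]⟩
  obtain ⟨b', rfl⟩ : ∃ b' : ℝ, (b' : ℂ) = b := ⟨b.re, by apply Complex.ext <;> simp [hb]⟩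
  obtain ⟨c', rfl⟩ : ∃ c' : ℝ, (c' : ℂ) = c := ⟨c.re, by apply Complex.ext <;> simp [hc]⟩
  obtain ⟨d', rfl⟩ : ∃ d' : ℝ, (d' : ℂ) = d := ⟨d.re, by apply Complex.ext <;> simp [hd]⟩
  have hprod : ∀ x : ℝ, (x - a') * ((x - b') * ((x - c') * (x - d')))
      = x ^ 4 + 7 * x ^ 3 + 13 * x ^ 2 + 8 * x + 2 := by
    intro x
    have h1 := hev (x : ℂ)
    rw [hfac] at h1
    simp only [eval_mul, eval_sub, eval_X, eval_C] at h1
    exact_mod_cast h1
  have e0 := hprod 0
  have e1 := hprod 1
  have e2 := hprod (-1)
  have e3 := hprod 2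
  have e4 := hprod (-2)
  have s4 : a' * b' * c' * d' = 2 := by linarith
  have s3 : a' * b' * c' + a' * b' * d' + a' * c' * d' + b' * c' * d' = -8 := by linarith
  have s2 : a' * b' + a' * c' + a' * d' + b' * c' + b' * d' + c' * d' = 13 := by linarith
  have hsq : (a' * b' * c') ^ 2 + (a' * b' * d') ^ 2 + (a' * c' * d') ^ 2 + (b' * c' * d') ^ 2
      = 12 := by
    have h1 : (a' * b' * c') ^ 2 + (a' * b' * d') ^ 2 + (a' * c' * d') ^ 2 + (b' * c' * d') ^ 2
        = (a' * b' * c' + a' * b' * d' + a' * c' * d' + b' * c' * d') ^ 2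
          - 2 * (a' * b' * c' * d')
            * (a' * b' + a' * c' + a' * d' + b' * c' + b' * d' + c' * d') := by ring
    rw [h1, s4, s3, s2]; norm_num
  nlinarith [sq_nonneg (a' * b' * c' + 2), sq_nonneg (a' * b' * d' + 2),
    sq_nonneg (a' * c' * d' + 2), sq_nonneg (b' * c' * d' + 2)]

/-- The answer to the question is negative: the gem, a chordal graph with five vertices, has a
graphical cycle polynomial with a non-real root. -/
theorem result : ∃ G : SimpleGraph (Fin 5), IsChordal G ∧
    ∃ z : ℂ, (cyclePoly G).IsRoot z ∧ z.im ≠ 0 := by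
  obtain ⟨z, hz, him⟩ := quartic_root
  refine ⟨gem, gem_chordal, z, ?_, him⟩
  rw [IsRoot.def, cyclePoly_gem]
  simp only [eval_add, eval_mul, eval_pow, eval_X, eval_ofNat]
  linear_combination z * hz

end Pool.Agent.Results.MP_efc620_co.GemCounterexample
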